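import Pool.Agent.Y61.Z.T10

/-!
# Y826-TII: bilinear forms, `S_TII` from `S_OFF`, `S_TRIV`, `S_BLS` (job 673)
-/

open Finset Filter

namespace Pool.Agent.Y61.Z

open Pool.Agent.Y826.Z

variable {K : ℕ}

/-- crude bounds for the sizes -/
lemma szg_bounds {δ X : ℝ} {M N : ℕ} {Q : Fin K → ℝ} {g : Fin K → Fin 5} (hX : 1 ≤ X) (hδ : 0 < δ)
    (hN1 : 1 ≤ N) (hM1 : 1 ≤ M)
    (hQ : ∀ j, 1 / 2 ≤ Q j) (hSz : Sz δ X M N (szg Q g 0) (szg Q g 1) (szg Q g 2) (szg Q g 3) (szg Q g 4)) :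
    ∀ i, szg Q g i ≤ 16 * 16 ^ K * X := by
  have hX0 : 0 < X := by linarith
  have hXδ : X ^ (-δ) ≤ 1 := Real.rpow_le_one_of_one_le_of_nonpos hX (by linarith)
  have hXδ0 : 0 < X ^ (-δ) := Real.rpow_pos_of_pos hX0 _
  have hMX : (M : ℝ) ≤ 16 * X := by
    have : (M : ℝ) * 1 ≤ M * N := mul_le_mul_of_nonneg_left (by exact_mod_cast hN1) (Nat.cast_nonneg _)
    linarith [hSz.mn2]
  have hNX : (N : ℝ) ≤ 16 * X := by
    have : 1 * (N : ℝ) ≤ M * N := mul_le_mul_of_nonneg_right (by exact_mod_cast hM1) (Nat.cast_nonneg _)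
    linarith [hSz.mn2]
  have hlow : ∀ i, (1 / 2 : ℝ) ^ K ≤ szg Q g i := by
    intro i
    rw [szg_eq]
    calc (1 / 2 : ℝ) ^ K = ∏ _j : Fin K, (1 / 2 : ℝ) := by simp
      _ ≤ _ := by
        apply prod_cmp (fun _ => by norm_num)
        intro j
        split_ifs
        · exact hQ j
        · norm_num
  have hpos : ∀ i, 0 < szg Q g i := fun i => lt_of_lt_of_le (by positivity) (hlow i)
  have h2K : (1 / 2 : ℝ) ^ K * 2 ^ K = 1 := by rw [← mul_pow]; norm_num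
  have h2Kp : (0 : ℝ) < 2 ^ K := by positivity
  have h2K1 : (1 : ℝ) ≤ 2 ^ K := one_le_pow₀ (by norm_num)
  have h4K : (4 : ℝ) ^ K = 2 ^ K * 2 ^ K := by rw [← mul_pow]; norm_num
  have hinv : ∀ i, 1 ≤ szg Q g i * 2 ^ K := by
    intro i
    rw [← h2K]
    exact mul_le_mul_of_nonneg_right (hlow i) h2Kp.le
  have hc1 : szg Q g 0 * szg Q g 1 ≤ 16 * X := by
    refine hSz.c1.trans ?_
    calc (N : ℝ) * X ^ (-δ) ≤ N * 1 := mul_le_mul_of_nonneg_left hXδ (Nat.cast_nonneg _)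
      _ ≤ _ := by linarith
  have hc2 : szg Q g 0 * szg Q g 1 * szg Q g 2 ^ 2 * szg Q g 3 ^ 2 ≤ 16 * X := by
    refine hSz.c2.trans ?_
    calc (M : ℝ) * X ^ (-δ) ≤ M * 1 := mul_le_mul_of_nonneg_left hXδ (Nat.cast_nonneg _)
      _ ≤ _ := by linarith
  have hc3 : szg Q g 0 * szg Q g 2 ^ 2 * szg Q g 4 ^ 4 ≤ 16 * X := by
    have h1 : szg Q g 0 * szg Q g 2 ^ 2 * szg Q g 4 ^ 4 * 1 ≤ szg Q g 0 * szg Q g 2 ^ 2 * szg Q g 4 ^ 4 *
        (max 1 (szg Q g 0 * szg Q g 1 * szg Q g 2 ^ 2 * szg Q g 3 ^ 2 * szg Q g 4 ^ 2 / M)) ^ 4 := by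
      apply mul_le_mul_of_nonneg_left _
        (mul_nonneg (mul_nonneg (hpos 0).le (pow_nonneg (hpos 2).le _)) (pow_nonneg (hpos 4).le _))
      exact one_le_pow₀ (le_max_left _ _)
    have h2 := hSz.c3
    calc _ ≤ (N : ℝ) * X ^ (-δ) := by linarith
      _ ≤ N * 1 := mul_le_mul_of_nonneg_left hXδ (Nat.cast_nonneg _)
      _ ≤ _ := by linarith
  have hC1 : (1 : ℝ) ≤ 16 ^ K := one_le_pow₀ (by norm_num)
  have h16K : (16 : ℝ) ^ K = 2 ^ K * 2 ^ K * (2 ^ K * 2 ^ K) := by rw [← mul_pow, ← mul_pow]; norm_num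
  have h8K : (8 : ℝ) ^ K = 2 ^ K * (2 ^ K * 2 ^ K) := by rw [← mul_pow, ← mul_pow]; norm_num
  have h216 : (2 : ℝ) ^ K ≤ 16 ^ K := pow_le_pow_left₀ (by norm_num) (by norm_num) _
  have h816 : (8 : ℝ) ^ K ≤ 16 ^ K := pow_le_pow_left₀ (by norm_num) (by norm_num) _
  have hsqinv : ∀ i, 1 ≤ szg Q g i ^ 2 * (2 ^ K * 2 ^ K) := by
    intro i
    have := hinv i
    calc (1 : ℝ) ≤ (szg Q g i * 2 ^ K) ^ 2 := one_le_pow₀ this
      _ = _ := by ring
  have h01 : 1 ≤ (szg Q g 0 * 2 ^ K) * (szg Q g 1 * 2 ^ K) := by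
    calc (1 : ℝ) = 1 * 1 := (one_mul _).symm
      _ ≤ _ := mul_le_mul (hinv 0) (hinv 1) zero_le_one (by linarith [hinv 0])
  intro i
  fin_cases i
  · show szg Q g 0 ≤ _
    calc szg Q g 0 = szg Q g 0 * 1 := (mul_one _).symm
      _ ≤ szg Q g 0 * (szg Q g 1 * 2 ^ K) := mul_le_mul_of_nonneg_left (hinv 1) (hpos 0).le
      _ = 2 ^ K * (szg Q g 0 * szg Q g 1) := by ring
      _ ≤ 2 ^ K * (16 * X) := mul_le_mul_of_nonneg_left hc1 h2Kp.le
      _ ≤ 16 ^ K * (16 * X) := mul_le_mul_of_nonneg_right h216 (by positivity)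
      _ = _ := by ring
  · show szg Q g 1 ≤ _
    calc szg Q g 1 = 1 * szg Q g 1 := (one_mul _).symm
      _ ≤ (szg Q g 0 * 2 ^ K) * szg Q g 1 := mul_le_mul_of_nonneg_right (hinv 0) (hpos 1).le
      _ = 2 ^ K * (szg Q g 0 * szg Q g 1) := by ring
      _ ≤ 2 ^ K * (16 * X) := mul_le_mul_of_nonneg_left hc1 h2Kp.le
      _ ≤ 16 ^ K * (16 * X) := mul_le_mul_of_nonneg_right h216 (by positivity)
      _ = _ := by ring
  · show szg Q g 2 ≤ _
    by_cases h1 : szg Q g 2 ≤ 1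
    · nlinarith
    · push Not at h1
      calc szg Q g 2 ≤ szg Q g 2 ^ 2 := by nlinarith
        _ = 1 * szg Q g 2 ^ 2 * 1 := by ring
        _ ≤ ((szg Q g 0 * 2 ^ K) * (szg Q g 1 * 2 ^ K)) * szg Q g 2 ^ 2 * (szg Q g 3 ^ 2 * (2 ^ K * 2 ^ K)) := by
            apply mul_le_mul _ (hsqinv 3) zero_le_one (by positivity)
            exact mul_le_mul_of_nonneg_right h01 (sq_nonneg _)
        _ = 16 ^ K * (szg Q g 0 * szg Q g 1 * szg Q g 2 ^ 2 * szg Q g 3 ^ 2) := by rw [h16K]; ring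
        _ ≤ 16 ^ K * (16 * X) := mul_le_mul_of_nonneg_left hc2 (by positivity)
        _ = _ := by ring
  · show szg Q g 3 ≤ _
    by_cases h1 : szg Q g 3 ≤ 1
    · nlinarith
    · push Not at h1
      calc szg Q g 3 ≤ szg Q g 3 ^ 2 := by nlinarith
        _ = 1 * 1 * szg Q g 3 ^ 2 := by ring
        _ ≤ ((szg Q g 0 * 2 ^ K) * (szg Q g 1 * 2 ^ K)) * (szg Q g 2 ^ 2 * (2 ^ K * 2 ^ K)) * szg Q g 3 ^ 2 := by
            apply mul_le_mul_of_nonneg_right _ (sq_nonneg _)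
            exact mul_le_mul h01 (hsqinv 2) zero_le_one (by positivity)
        _ = 16 ^ K * (szg Q g 0 * szg Q g 1 * szg Q g 2 ^ 2 * szg Q g 3 ^ 2) := by rw [h16K]; ring
        _ ≤ 16 ^ K * (16 * X) := mul_le_mul_of_nonneg_left hc2 (by positivity)
        _ = _ := by ring
  · show szg Q g 4 ≤ _
    by_cases h1 : szg Q g 4 ≤ 1
    · nlinarith
    · push Not at h1
      calc szg Q g 4 ≤ szg Q g 4 ^ 4 := le_self_pow₀ h1.le (by norm_num)
        _ = 1 * 1 * szg Q g 4 ^ 4 := by ring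
        _ ≤ (szg Q g 0 * 2 ^ K) * (szg Q g 2 ^ 2 * (2 ^ K * 2 ^ K)) * szg Q g 4 ^ 4 := by
            apply mul_le_mul_of_nonneg_right _ (by positivity)
            exact mul_le_mul (hinv 0) (hsqinv 2) zero_le_one (by linarith [hinv 0])
        _ = 8 ^ K * (szg Q g 0 * szg Q g 2 ^ 2 * szg Q g 4 ^ 4) := by rw [h8K]; ring
        _ ≤ 8 ^ K * (16 * X) := mul_le_mul_of_nonneg_left hc3 (by positivity)
        _ ≤ 16 ^ K * (16 * X) := mul_le_mul_of_nonneg_right h816 (by positivity)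
        _ = _ := by ring

/-- each size is at most the size of its group, up to a constant -/
lemma Q_le_szg {Q : Fin K → ℝ} {g : Fin K → Fin 5} (hQ : ∀ j, 1 / 2 ≤ Q j) (j0 : Fin K) :
    Q j0 ≤ 2 ^ K * szg Q g (g j0) := by
  rw [szg_eq]
  have h1 : (2 : ℝ) ^ K * ∏ j, (if g j = g j0 then Q j else 1) = ∏ j, (2 * (if g j = g j0 then Q j else 1)) := by
    simp only [prod_mul_distrib, prod_const, card_univ, Fintype.card_fin]
  rw [h1, ← mul_prod_erase univ _ (mem_univ j0), if_pos rfl]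
  have h2 : 1 ≤ ∏ j ∈ univ.erase j0, (2 * (if g j = g j0 then Q j else 1)) := by
    have : ∏ _j ∈ univ.erase j0, (1 : ℝ) ≤ ∏ j ∈ univ.erase j0, (2 * (if g j = g j0 then Q j else 1)) := by
      apply prod_le_prod (fun _ _ => zero_le_one)
      intro j _
      split_ifs
      · linarith [hQ j]
      · norm_num
    simpa using this
  have h3 := hQ j0
  nlinarith

/-- the square root of a bound -/
lemma abs_le_of_sq {P X ℓ t : ℝ} {A : ℕ} (hX : 0 ≤ X) (hℓ : 0 < ℓ) (h1 : P ^ 2 ≤ X ^ 2 * t)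
    (h2 : t ≤ 1 / (4 * ℓ ^ (2 * A))) : |P| ≤ X / (2 * ℓ ^ A) := by
  apply abs_le_of_sq_le_sq _ (by positivity)
  refine h1.trans ?_
  calc X ^ 2 * t ≤ X ^ 2 * (1 / (4 * ℓ ^ (2 * A))) := mul_le_mul_of_nonneg_left h2 (sq_nonneg _)
    _ = (X / (2 * ℓ ^ A)) ^ 2 := by
        rw [div_pow, mul_pow, ← pow_mul, mul_comm A 2]
        field_simp
        norm_num

theorem tii (h1 : S_OFF) (h2 : S_TRIV) (h3 : S_BLS) : S_TII := by
  classical
  intro K h W b H δ hδ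
  obtain ⟨ε1, hε1, hoff⟩ := h1 K h W b H δ hδ
  obtain ⟨ε2, hε2, htriv⟩ := h2 K h W b H δ hδ
  obtain ⟨Cb, hCb⟩ := h3
  obtain ⟨Cm, hCm⟩ := moment' h
  have hm0 : 0 < min (min ε1 ε2) (min δ 1) := lt_min (lt_min hε1 hε2) (lt_min hδ one_pos)
  obtain ⟨ε, hε⟩ : ∃ ε : ℝ, ε = min (min ε1 ε2) (min δ 1) / 16 := ⟨_, rfl⟩
  have hε0 : 0 < ε := by rw [hε]; positivity
  have he1 : 16 * ε ≤ ε1 := by
    have : min (min ε1 ε2) (min δ 1) ≤ ε1 := (min_le_left _ _).trans (min_le_left _ _)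
    rw [hε]; linarith
  have he2 : 16 * ε ≤ ε2 := by
    have : min (min ε1 ε2) (min δ 1) ≤ ε2 := (min_le_left _ _).trans (min_le_right _ _)
    rw [hε]; linarith
  have he3 : 16 * ε ≤ δ := by
    have : min (min ε1 ε2) (min δ 1) ≤ δ := (min_le_right _ _).trans (min_le_left _ _)
    rw [hε]; linarith
  have he4 : 16 * ε ≤ 1 := by
    have : min (min ε1 ε2) (min δ 1) ≤ 1 := (min_le_right _ _).trans (min_le_right _ _)
    rw [hε]; linarith
  refine ⟨ε, hε0, fun A => ?_⟩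
  obtain ⟨B1, hB1⟩ := htriv (2 * A + (K + 6) + 1)
  set c3 : ℕ := 8 * K + 2 ^ (K + 1) * K + Cm + Cb + 8 with hc3
  set C3 : ℝ := 3 ^ (8 * K) * (tau W ^ K) * 2 ^ (2 ^ (K + 1) * K) * Cm * 2 ^ Cm * Cb * 2 ^ Cb * 262144 with hC3
  refine ⟨max B1 (2 * A + c3 + 1), fun B hB => ?_⟩
  have hBB1 : B1 ≤ B := (le_max_left _ _).trans hB
  have hBc : 2 * A + c3 + 1 ≤ B := (le_max_right _ _).trans hB
  have hBpos : 1 ≤ B := by omega
  filter_upwards [hoff, hB1 B hBB1, ev_log (W + 2), ev_log (1 + Real.log 64), ev_rpow (2 ^ K) hε0,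
    ev_rpow 64 hε0, ev_rpow (W * 4 ^ K * 16) hε0, ev_tau hε1,
    asym (6 ^ K * 8192) (K + 6) A (2 * A + (K + 6) + 1) hε1 le_rfl,
    asym C3 c3 A B hε0 hBc, eventually_ge_atTop (16 * ((∑ j, (h j).natAbs : ℕ) + 1 : ℝ)),
    eventually_ge_atTop (2 * 2 ^ K * (16 * 16 ^ K) : ℝ), eventually_ge_atTop (1 : ℝ)]
    with X hoffX htrivX hℓW hℓ64 hK2 h64 hWK htauX hasym1 hasym3 hXh hXK hX1
  intro M N Q g hQ0 hSz S hS c hc α β hα hβ
  set ℓ := Real.log X with hℓdef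
  set D := D0 X B with hDdef
  have hX0 : 0 < X := by linarith
  have hℓ2 : 2 ≤ ℓ := by
    have : (0 : ℝ) ≤ W := Nat.cast_nonneg _
    linarith
  have hℓ1 : 1 ≤ ℓ := by linarith
  have hℓ0 : 0 < ℓ := by linarith
  rcases S.eq_empty_or_nonempty with rfl | ⟨qs, hqs⟩
  · simp only [sum_empty, abs_zero]
    positivity
  have hsf : ∀ q ∈ S, ∀ j, Squarefree (q j) := fun q hq => sqf_of_Pr (Squarefree.of_mul_right (hS q hq).1)
  have hq1 : ∀ q ∈ S, ∀ j, 1 ≤ q j := fun q hq j => Nat.pos_of_ne_zero (hsf q hq j).ne_zero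
  have hup : ∀ q ∈ S, ∀ j, (q j : ℝ) ≤ 2 * Q j := fun q hq j => ((hS q hq).2.1 j).2
  have hQ : ∀ j, 1 / 2 ≤ Q j := by
    intro j
    have h4 : (1 : ℝ) ≤ qs j := by exact_mod_cast hq1 qs hqs j
    linarith [hup qs hqs j]
  have hN1 : 1 ≤ N := by
    have h4 : (0 : ℝ) < N := lt_of_lt_of_le (Real.rpow_pos_of_pos hX0 _) hSz.n1
    exact_mod_cast h4
  have hMN0 : 0 < (M : ℝ) * N := lt_of_lt_of_le (by positivity) hSz.mn1
  have hM1 : 1 ≤ M := by
    rcases Nat.eq_zero_or_pos M with h4 | h4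
    · rw [h4] at hMN0; simp at hMN0
    · exact h4
  have hMN : (M : ℝ) * N ≤ 16 * X := hSz.mn2
  have hMX : (M : ℝ) ≤ 16 * X := by
    have : (M : ℝ) * 1 ≤ M * N := mul_le_mul_of_nonneg_left (by exact_mod_cast hN1) (Nat.cast_nonneg _)
    linarith
  have hNX : (N : ℝ) ≤ 16 * X := by
    have : 1 * (N : ℝ) ≤ M * N := mul_le_mul_of_nonneg_right (by exact_mod_cast hM1) (Nat.cast_nonneg _)
    linarith
  have hlog64 : ∀ Y : ℕ, 1 ≤ Y → (Y : ℝ) ≤ 64 * X → 1 + Real.log Y ≤ 2 * ℓ := by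
    intro Y hY hYX
    have h4 : Real.log Y ≤ Real.log (64 * X) := Real.log_le_log (by exact_mod_cast hY) hYX
    rw [Real.log_mul (by norm_num) hX0.ne'] at h4
    linarith
  have h2M : 1 + Real.log (2 * M : ℕ) ≤ 2 * ℓ := hlog64 _ (by omega) (by push_cast; linarith)
  have h2N : 1 + Real.log (2 * N : ℕ) ≤ 2 * ℓ := hlog64 _ (by omega) (by push_cast; linarith)
  have h4MN : 1 + Real.log ((2 * M) * (2 * N) : ℕ) ≤ 2 * ℓ :=
    hlog64 _ (Nat.mul_pos (by omega) (by omega)) (by push_cast; nlinarith)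
  -- powers of X
  have hXε : 0 < X ^ ε := Real.rpow_pos_of_pos hX0 _
  have hε21 : 2 ^ K * X ^ ε ≤ X ^ ε1 := by
    calc 2 ^ K * X ^ ε ≤ X ^ ε * X ^ ε := mul_le_mul_of_nonneg_right hK2 hXε.le
      _ = X ^ (ε + ε) := (Real.rpow_add hX0 _ _).symm
      _ ≤ X ^ ε1 := Real.rpow_le_rpow_of_exponent_le hX1 (by linarith)
  have hε22 : 2 ^ K * X ^ ε ≤ X ^ ε2 := by
    calc 2 ^ K * X ^ ε ≤ X ^ ε * X ^ ε := mul_le_mul_of_nonneg_right hK2 hXε.le
      _ = X ^ (ε + ε) := (Real.rpow_add hX0 _ _).symm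
      _ ≤ X ^ ε2 := Real.rpow_le_rpow_of_exponent_le hX1 (by linarith)
  have hsq : Real.sqrt X * X ^ (-ε) = X ^ (1 / 2 - ε) := by
    rw [Real.sqrt_eq_rpow, ← Real.rpow_add hX0]; congr 1
  -- the cut
  have hℓB : ℓ ≤ ℓ ^ B := le_self_pow₀ hℓ1 (by omega)
  have hDW : ∀ p : ℕ, p.Prime → p ∣ W → p ≤ D := by
    intro p _ hpW
    have h4 : p ≤ W := Nat.le_of_dvd H.wpos hpW
    refine h4.trans (Nat.le_floor ?_)
    linarith
  have hD1 : 1 ≤ D := Nat.le_floor (by push_cast; linarith)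
  have hDB : ℓ ^ B / 2 ≤ (D : ℝ) := by
    have h4 := Nat.lt_floor_add_one (ℓ ^ B)
    have h5 : ((⌊ℓ ^ B⌋₊ : ℕ) : ℝ) = (D : ℝ) := rfl
    rw [h5] at h4
    linarith
  -- the bound F for the moduli
  set F : ℕ := ⌊X ^ (1 / 2 - ε)⌋₊ with hFdef
  have hF2 : 2 ≤ F := by
    apply Nat.le_floor
    have h4 : X ^ ε ≤ X ^ (1 / 2 - ε) := Real.rpow_le_rpow_of_exponent_le hX1 (by linarith)
    push_cast
    linarith
  have hFle : (F : ℝ) ≤ X ^ (1 / 2 - ε) := Nat.floor_le (Real.rpow_nonneg hX0.le _)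
  have hFX : (F : ℝ) ≤ X := by
    refine hFle.trans ?_
    calc X ^ (1 / 2 - ε) ≤ X ^ (1 : ℝ) := Real.rpow_le_rpow_of_exponent_le hX1 (by linarith)
      _ = X := Real.rpow_one X
  have hFlog : 1 + Real.log F ≤ 2 * ℓ := hlog64 F (by omega) (by linarith)
  have hN2 : (N : ℝ) ≤ 16 * X ^ (1 / 2 : ℝ) := hSz.n2
  have hFt : ∀ q ∈ S, W * Pr (fe g D q) ≤ F := by
    intro q hq
    apply Nat.le_floor
    push_cast
    have h4 := a_upper (D := D) (g := g) hQ0 (hup q hq)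
    have h5 := r_upper (g := g) (hup q hq)
    have h6 : (Pr (fe g D q) : ℝ) = (Pr (fa g D q) : ℝ) * (Pr (fr g q) : ℝ) := by
      rw [Pr_fe]; push_cast; ring
    have hz0 := hSz.ra
    have hz1 := hSz.rb
    have h7 : (Pr (fe g D q) : ℝ) ≤ (2 ^ K * szg Q g 0 * X ^ ε) * (2 ^ K * szg Q g 1) := by
      rw [h6]
      apply mul_le_mul _ h5 (Nat.cast_nonneg _) (by positivity)
      exact h4.trans (mul_le_mul_of_nonneg_left (hS q hq).2.2 (by positivity))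
    have h8 : szg Q g 0 * szg Q g 1 ≤ 16 * X ^ (1 / 2 : ℝ) * X ^ (-δ) :=
      hSz.c1.trans (mul_le_mul_of_nonneg_right hN2 (Real.rpow_nonneg hX0.le _))
    calc (W : ℝ) * (Pr (fe g D q) : ℝ) ≤ W * ((2 ^ K * szg Q g 0 * X ^ ε) * (2 ^ K * szg Q g 1)) :=
          mul_le_mul_of_nonneg_left h7 (Nat.cast_nonneg _)
      _ = W * 4 ^ K * X ^ ε * (szg Q g 0 * szg Q g 1) := by
          have : (4 : ℝ) ^ K = 2 ^ K * 2 ^ K := by rw [← mul_pow]; norm_num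
          rw [this]; ring
      _ ≤ W * 4 ^ K * X ^ ε * (16 * X ^ (1 / 2 : ℝ) * X ^ (-δ)) :=
          mul_le_mul_of_nonneg_left h8 (by positivity)
      _ = (W * 4 ^ K * 16) * (X ^ ε * X ^ (1 / 2 : ℝ) * X ^ (-δ)) := by ring
      _ ≤ X ^ ε * (X ^ ε * X ^ (1 / 2 : ℝ) * X ^ (-δ)) :=
          mul_le_mul_of_nonneg_right hWK (by positivity)
      _ = X ^ (ε + (ε + 1 / 2 + -δ)) := by
          rw [Real.rpow_add hX0, Real.rpow_add hX0, Real.rpow_add hX0]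
      _ ≤ X ^ (1 / 2 - ε) := Real.rpow_le_rpow_of_exponent_le hX1 (by linarith)
  -- the bound R for the parts
  set R : ℕ := ⌊X ^ 2⌋₊ with hRdef
  have hRq : ∀ q ∈ S, ∀ j, q j ≤ R := by
    intro q hq j
    apply Nat.le_floor
    have h4 := szg_bounds hX1 hδ hN1 hM1 hQ hSz (g j)
    have h5 := Q_le_szg (g := g) hQ j
    calc (q j : ℝ) ≤ 2 * Q j := hup q hq j
      _ ≤ 2 * (2 ^ K * szg Q g (g j)) := by linarith
      _ ≤ 2 * (2 ^ K * (16 * 16 ^ K * X)) := by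
          apply mul_le_mul_of_nonneg_left _ (by norm_num)
          exact mul_le_mul_of_nonneg_left h4 (by positivity)
      _ = (2 * 2 ^ K * (16 * 16 ^ K)) * X := by ring
      _ ≤ X * X := mul_le_mul_of_nonneg_right hXK hX0.le
      _ = X ^ 2 := (pow_two X).symm
  have hR1 : 1 ≤ R := Nat.le_floor (by push_cast; exact one_le_pow₀ hX1)
  have hRlog : 1 + Real.log R ≤ 3 * ℓ := by
    have h4 : (R : ℝ) ≤ X ^ 2 := Nat.floor_le (by positivity)
    have h5 : Real.log R ≤ Real.log (X ^ 2) := Real.log_le_log (by exact_mod_cast hR1) h4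
    rw [Real.log_pow] at h5
    push_cast at h5
    linarith
  have hnz : ∀ x : ℕ, M * N < x → ∀ j, (x : ℤ) + h j ≠ 0 := by
    intro x hx j h0
    have h4 : (h j).natAbs ≤ ∑ j, (h j).natAbs :=
      single_le_sum (f := fun j => (h j).natAbs) (fun _ _ => Nat.zero_le _) (mem_univ j)
    have h5 : x ≤ ∑ j, (h j).natAbs := by omega
    have h6 : ((M * N : ℕ) : ℝ) < (∑ j, (h j).natAbs : ℕ) := by exact_mod_cast lt_of_lt_of_le hx h5
    have h7 := hSz.mn1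
    push_cast at h6 hXh
    linarith
  -- the classes
  have hcl : ∀ q ∈ S, ∃ x0 : ℕ, x0.Coprime (W * Pr (fe g D q)) ∧ ∀ d : Fin K → ℕ, (∀ j, d j ∣ fe g D q j) → ∀ x : ℕ,
      (x ≡ x0 [MOD (W * Pr d)] ↔ x ≡ b [MOD W] ∧ Cd h d x) := by
    intro q hq
    apply exists_class h H
    apply (hS q hq).1.squarefree_of_dvd
    apply mul_dvd_mul_left
    apply Pr_dvd_Pr
    intro j
    rw [← fe_mul (g := g) (D := D) (hsf q hq) j]
    exact dvd_mul_right _ _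
  choose! x0 hx0 using hcl
  have hgood : GoodX h W b D g S x0 := hx0
  -- the decomposition
  set P1 : ℝ := ∑ q ∈ S, c q * ∑ m ∈ Ioc M (2 * M), ∑ n ∈ Ioc N (2 * N), α m * β n *
        (ind (Lc h W b (fa g D q) (fr g q) (m * n)) * Du h (fu g D q) (fv g D q) (m * n)) with hP1
  set P2 : ℝ := ∑ q ∈ S, c q * ∑ m ∈ Ioc M (2 * M), ∑ n ∈ Ioc N (2 * N), α m * β n *
        ((1 / (Nat.totient (Pr (fu g D q) * Pr (fv g D q)) : ℝ)) *
          ind ((m * n).Coprime (Pr (fu g D q) * Pr (fv g D q))) * br D (W * Pr (fe g D q)) (x0 q) (m * n)) with hP2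
  have hsplit : ∑ q ∈ S, c q * ∑ m ∈ Ioc M (2 * M), ∑ n ∈ Ioc N (2 * N), α m * β n * dl h W b D q (m * n) = P1 + P2 := by
    rw [hP1, hP2, ← sum_add_distrib]
    refine sum_congr rfl fun q hq => ?_
    rw [← mul_add, ← sum_add_distrib]
    congr 1
    refine sum_congr rfl fun m _ => ?_
    rw [← sum_add_distrib]
    refine sum_congr rfl fun n _ => ?_
    rw [dl_eq h (hS q hq).1 hDW (x0 q) (hx0 q hq).2 (m * n)]
    ring
  rw [hsplit]
  -- first part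
  have hb1 : |P1| ≤ X / (2 * ℓ ^ A) := by
    have hfm1 := fm (W := W) (D := D) (g := g) (S := S) (c := c) hX1 hε0.le hε21 hQ0 hS hc
    have hfm2 := fm (W := W) (D := D) (g := g) (S := S) (c := c) hX1 hε0.le hε22 hQ0 hS hc
    have hβ1 : ∀ n ∈ Ioc N (2 * N), |β n| ≤ X ^ ε1 := by
      intro n hn
      refine (hβ n hn).trans ?_
      rw [mem_Ioc] at hn
      apply htauX n (by omega)
      have h4 : (n : ℝ) ≤ 2 * N := by exact_mod_cast hn.2
      have h5 : (64 : ℝ) ≤ X ^ (1 / 2 : ℝ) :=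
        h64.trans (Real.rpow_le_rpow_of_exponent_le hX1 (by linarith))
      have h6 : X ^ (1 / 2 : ℝ) * X ^ (1 / 2 : ℝ) = X := by
        rw [← Real.rpow_add hX0]; norm_num
      nlinarith [Real.rpow_pos_of_pos hX0 (1 / 2 : ℝ)]
    have hO := hoffX M N _ _ _ _ _ hSz _ _ _ _ _ _ _ hfm1 β hβ1
    have hT := htrivX M N _ _ _ _ _ hSz _ _ _ _ _ _ _ hfm2 (by
        intro u hu p hp hpu
        obtain ⟨q, hq, rfl⟩ := mem_image.mp hu
        unfold Pr at hpu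
        rw [Prime.dvd_finsetProd_iff hp.prime] at hpu
        obtain ⟨j, _, hj⟩ := hpu
        unfold fu at hj
        split_ifs at hj
        · exact prime_of_dvd_rop hp hj
        · exact absurd (Nat.dvd_one.mp hj) hp.one_lt.ne') (by
        intro u hu p hp hpu
        obtain ⟨q, hq, rfl⟩ := mem_image.mp hu
        unfold Pr at hpu
        rw [Prime.dvd_finsetProd_iff hp.prime] at hpu
        obtain ⟨j, _, hj⟩ := hpu
        unfold fv at hj
        split_ifs at hj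
        · exact prime_of_dvd_rop hp hj
        · exact absurd (Nat.dvd_one.mp hj) hp.one_lt.ne') β hβ
    have hf := first (h := h) (W := W) (b := b) (D := D) (g := g) hsf c (M := M) (N := N) α β
    have hTh := sum_th (g := g) (D := D) hsf Q hQ0 hup hRq
    have hTh0 : 0 ≤ ∑ p ∈ S.image (fun q => (fa g D q, fr g q)), 1 / thf g p.1 := by
      refine sum_nonneg fun p hp => ?_
      obtain ⟨q, hq, rfl⟩ := mem_image.mp hp
      have := th_one (g := g) _ (fa_pos (g := g) (D := D) (hq1 q hq))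
      positivity
    have hAl := alpha_sq hℓ0.le hα
    have hAl0 : 0 ≤ ∑ m ∈ Ioc M (2 * M), α m ^ 2 := sum_nonneg fun m _ => sq_nonneg _
    have h4 := (abs_le.mp hO).2
    have h5 := (abs_le.mp hT).2
    generalize (∑ p ∈ S.image (fun q => (fa g D q, fr g q)), 1 / thf g p.1) = Th at hf hTh hTh0
    generalize (∑ m ∈ Ioc M (2 * M), α m ^ 2) = Al at hf hAl hAl0
    generalize (Soff h W b M N (S.image (fa g D)) (S.image (fr g)) (S.image (fu g D)) (S.image (fv g D)) (thf g)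
          (ccf g D S c) β) = So at h4 h5
    generalize (SS h W b M N (S.image (fa g D)) (S.image (fr g)) (S.image (fu g D)) (S.image (fv g D)) (thf g)
          (ccf g D S c) β) = Sv at hf h5
    have hSv : Sv ≤ (M * (N : ℝ) ^ 2 / (szg Q g 0 * szg Q g 1)) * (1 / ℓ ^ (2 * A + (K + 6) + 1) + X ^ (-ε1)) := by
      rw [mul_add]
      have h6 : (M * (N : ℝ) ^ 2 / (szg Q g 0 * szg Q g 1)) * (1 / ℓ ^ (2 * A + (K + 6) + 1)) =
        (M * (N : ℝ) ^ 2 / (szg Q g 0 * szg Q g 1)) / ℓ ^ (2 * A + (K + 6) + 1) := by ring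
      rw [h6]
      linarith
    have hz0 : 0 ≤ 1 / ℓ ^ (2 * A + (K + 6) + 1) + X ^ (-ε1) := by positivity
    have hnum := part1_num hℓ1 hM1 hMN hRlog h2M hSz.ra hSz.rb hTh hTh0 hAl hAl0 hz0 hSv
    exact abs_le_of_sq hX0.le hℓ0 (hf.trans hnum) hasym1
  -- second part
  have hb2 : |P2| ≤ X / (2 * ℓ ^ A) := by
    have hm : Real.sqrt (2 * M : ℕ) ≤ Real.sqrt X * X ^ (-ε) := by
      rw [hsq, Real.sqrt_le_left (Real.rpow_nonneg hX0.le _), ← Real.rpow_natCast, ← Real.rpow_mul hX0.le]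
      have h4 : (M : ℝ) * X ^ (1 / 4 : ℝ) ≤ 16 * X :=
        (mul_le_mul_of_nonneg_left hSz.n1 (Nat.cast_nonneg _)).trans hMN
      have h5 : X ^ (1 / 4 : ℝ) * X ^ (3 / 4 : ℝ) = X := by rw [← Real.rpow_add hX0]; norm_num
      have h6 : 0 < X ^ (1 / 4 : ℝ) := Real.rpow_pos_of_pos hX0 _
      have h7 : (M : ℝ) ≤ 16 * X ^ (3 / 4 : ℝ) := by
        have : (M : ℝ) * X ^ (1 / 4 : ℝ) ≤ (16 * X ^ (3 / 4 : ℝ)) * X ^ (1 / 4 : ℝ) := by
          calc _ ≤ 16 * X := h4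
            _ = 16 * (X ^ (1 / 4 : ℝ) * X ^ (3 / 4 : ℝ)) := by rw [h5]
            _ = _ := by ring
        exact le_of_mul_le_mul_right this h6
      push_cast
      calc 2 * (M : ℝ) ≤ 64 * X ^ (3 / 4 : ℝ) := by
            have : 0 < X ^ (3 / 4 : ℝ) := Real.rpow_pos_of_pos hX0 _
            linarith
        _ ≤ X ^ ε * X ^ (3 / 4 : ℝ) := mul_le_mul_of_nonneg_right h64 (Real.rpow_nonneg hX0.le _)
        _ = X ^ (ε + 3 / 4) := (Real.rpow_add hX0 _ _).symm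
        _ ≤ _ := Real.rpow_le_rpow_of_exponent_le hX1 (by linarith)
    have hn : Real.sqrt (2 * N : ℕ) ≤ Real.sqrt X * X ^ (-ε) := by
      rw [hsq, Real.sqrt_le_left (Real.rpow_nonneg hX0.le _), ← Real.rpow_natCast, ← Real.rpow_mul hX0.le]
      push_cast
      calc 2 * (N : ℝ) ≤ 64 * X ^ (1 / 2 : ℝ) := by
            have : 0 < X ^ (1 / 2 : ℝ) := Real.rpow_pos_of_pos hX0 _
            linarith
        _ ≤ X ^ ε * X ^ (1 / 2 : ℝ) := mul_le_mul_of_nonneg_right h64 (Real.rpow_nonneg hX0.le _)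
        _ = X ^ (ε + 1 / 2) := (Real.rpow_add hX0 _ _).symm
        _ ≤ _ := Real.rpow_le_rpow_of_exponent_le hX1 (by linarith)
    have hFF : (F : ℝ) ≤ Real.sqrt X * X ^ (-ε) := by rw [hsq]; exact hFle
    have hTW : 0 ≤ tau W ^ K := pow_nonneg (tau_nonneg _) _
    have hnum := part2_num (K := K) (R := R) (Cm := Cm) (Cb := Cb) (e1 := 2 ^ (K + 1) * K) (TW := tau W ^ K)
      hℓ1 hX1 hMN hRlog h2M h2N h4MN hFlog hTW hDB rfl hm hn hFF
    set Mb : ℝ := ℓ ^ 2 * (tau W ^ K * (1 + (1 + Real.log F) ^ (2 ^ (K + 1) * K))) *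
        (Cm * ((2 * M) * (2 * N) : ℕ) * (1 + Real.log ((2 * M) * (2 * N) : ℕ)) ^ Cm) with hMb
    set Bb : ℝ := Cb * (1 + Real.log F) ^ Cb *
        (Real.sqrt ((2 * M : ℕ) * (2 * N : ℕ)) / D + Real.sqrt (2 * M : ℕ) + Real.sqrt (2 * N : ℕ) + F) *
          (Real.sqrt (ℓ ^ 2 * ((2 * M : ℕ) * (1 + Real.log (2 * M : ℕ)) ^ 4)) *
            Real.sqrt (ℓ ^ 2 * ((2 * N : ℕ) * (1 + Real.log (2 * N : ℕ)) ^ 4))) with hBb
    have hMB0 : 0 ≤ Mb * Bb := by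
      have g1 := pow_nonneg (one_add_log_nonneg F) (2 ^ (K + 1) * K)
      have g2 := pow_nonneg (one_add_log_nonneg F) Cb
      have g3 := pow_nonneg (one_add_log_nonneg ((2 * M) * (2 * N))) Cm
      positivity
    have hsec := second (h := h) (W := W) (b := b) (D := D) (F := F) (g := g) (S := S) (fun q hq => (hS q hq).1) hFt
      hgood (M := M) (N := N) (R := R) hRq (α := α) (β := β) hMB0 (by
        intro S' u v HF hg'
        exact HF.bound H.wpos hDW hD1 hF2 hg' hM1 hN1 hnz hℓ0.le hα hβ hCm hCb) c hc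
    have hsq2 : P2 ^ 2 ≤ X ^ 2 * (C3 * ℓ ^ c3 * (1 / ℓ ^ B + X ^ (-ε))) := by
      refine le_trans ?_ hnum
      rw [← sq_abs]
      calc |P2| ^ 2 ≤ ((1 + Real.log R) ^ (4 * K) * Real.sqrt (Mb * Bb)) ^ 2 :=
            pow_le_pow_left₀ (abs_nonneg _) hsec 2
        _ = ((1 + Real.log R) ^ (4 * K)) ^ 2 * (Mb * Bb) := by
            rw [mul_pow, Real.sq_sqrt hMB0]
    exact abs_le_of_sq hX0.le hℓ0 hsq2 hasym3
  calc |P1 + P2| ≤ |P1| + |P2| := abs_add_le _ _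
    _ ≤ X / (2 * ℓ ^ A) + X / (2 * ℓ ^ A) := add_le_add hb1 hb2
    _ = X / ℓ ^ A := by field_simp; norm_num

end Pool.Agent.Y61.Z
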