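import Pool.Agent.Y61.Z.T1

/-!
# Y826-TII: the decomposition of a tuple and of `dl`
-/

open Finset

namespace Pool.Agent.Y61.Z

open Pool.Agent.Y826.Z

variable {K : ℕ}

/-- the four parts of a tuple -/
def fa (g : Fin K → Fin 5) (D : ℕ) (q : Fin K → ℕ) : Fin K → ℕ := fun j =>
  if g j = 0 then q j else if g j = 1 then 1 else smp D (q j)

def fr (g : Fin K → Fin 5) (q : Fin K → ℕ) : Fin K → ℕ := fun j => if g j = 1 then q j else 1

def fu (g : Fin K → Fin 5) (D : ℕ) (q : Fin K → ℕ) : Fin K → ℕ := fun j =>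
  if g j = 2 ∨ g j = 3 then rop D (q j) else 1

def fv (g : Fin K → Fin 5) (D : ℕ) (q : Fin K → ℕ) : Fin K → ℕ := fun j =>
  if g j = 4 then rop D (q j) else 1

/-- `a r` -/
def fe (g : Fin K → Fin 5) (D : ℕ) (q : Fin K → ℕ) : Fin K → ℕ := fun j =>
  if g j = 0 ∨ g j = 1 then q j else smp D (q j)

lemma g_cases (g : Fin K → Fin 5) (j : Fin K) : g j = 0 ∨ g j = 1 ∨ g j = 2 ∨ g j = 3 ∨ g j = 4 := by
  generalize g j = i
  fin_cases i <;> simp

lemma fa_mul_fr (g : Fin K → Fin 5) (D : ℕ) (q : Fin K → ℕ) (j : Fin K) :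
    fa g D q j * fr g q j = fe g D q j := by
  unfold fa fr fe
  rcases g_cases g j with h | h | h | h | h <;> simp [h]

lemma fe_mul {g : Fin K → Fin 5} {D : ℕ} {q : Fin K → ℕ} (hq : ∀ j, Squarefree (q j)) (j : Fin K) :
    fe g D q j * (fu g D q j * fv g D q j) = q j := by
  unfold fe fu fv
  rcases g_cases g j with h | h | h | h | h <;> simp [h, smp_mul_rop (hq j)]

lemma all_mul {g : Fin K → Fin 5} {D : ℕ} {q : Fin K → ℕ} (hq : ∀ j, Squarefree (q j)) (j : Fin K) :
    fa g D q j * fr g q j * fu g D q j * fv g D q j = q j := by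
  rw [fa_mul_fr, mul_assoc, fe_mul hq]

lemma Pr_fe (g : Fin K → Fin 5) (D : ℕ) (q : Fin K → ℕ) :
    Pr (fe g D q) = Pr (fa g D q) * Pr (fr g q) := by
  rw [← Pr_mul]
  exact prod_congr rfl fun j _ => (fa_mul_fr g D q j).symm

lemma Pr_all {g : Fin K → Fin 5} {D : ℕ} {q : Fin K → ℕ} (hq : ∀ j, Squarefree (q j)) :
    Pr (fa g D q) * Pr (fr g q) * Pr (fu g D q) * Pr (fv g D q) = Pr q := by
  rw [← Pr_mul, ← Pr_mul, ← Pr_mul]
  exact prod_congr rfl fun j _ => all_mul hq j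

/-- the conditions of the four parts -/
lemma Cd_all (h : Fin K → ℤ) {g : Fin K → Fin 5} {D : ℕ} {q : Fin K → ℕ} (hq : ∀ j, Squarefree (q j))
    (x : ℕ) : Cd h q x ↔ (Cd h (fa g D q) x ∧ Cd h (fr g q) x) ∧ (Cd h (fu g D q) x ∧ Cd h (fv g D q) x) := by
  have key : ∀ j, ((q j : ℤ) ∣ (x : ℤ) + h j) ↔ ((smp D (q j) : ℤ) ∣ (x : ℤ) + h j) ∧
      ((rop D (q j) : ℤ) ∣ (x : ℤ) + h j) := by
    intro j
    have hcop : IsCoprime ((smp D (q j) : ℕ) : ℤ) ((rop D (q j) : ℕ) : ℤ) :=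
      Nat.isCoprime_iff_coprime.mpr (coprime_smp_rop D _ _)
    constructor
    · intro hj
      exact ⟨(Int.natCast_dvd_natCast.mpr (smp_dvd (hq j))).trans hj,
        (Int.natCast_dvd_natCast.mpr (rop_dvd (hq j))).trans hj⟩
    · rintro ⟨h1, h2⟩
      have := hcop.mul_dvd h1 h2
      rwa [← Nat.cast_mul, smp_mul_rop (hq j)] at this
  constructor
  · intro hx
    refine ⟨⟨fun j => ?_, fun j => ?_⟩, ⟨fun j => ?_, fun j => ?_⟩⟩
    · unfold fa
      rcases g_cases g j with h' | h' | h' | h' | h'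
      · simpa [h'] using hx j
      · simp [h']
      · simpa [h'] using ((key j).mp (hx j)).1
      · simpa [h'] using ((key j).mp (hx j)).1
      · simpa [h'] using ((key j).mp (hx j)).1
    · unfold fr
      rcases g_cases g j with h' | h' | h' | h' | h'
      · simp [h']
      · simpa [h'] using hx j
      · simp [h']
      · simp [h']
      · simp [h']
    · unfold fu
      rcases g_cases g j with h' | h' | h' | h' | h'
      · simp [h']
      · simp [h']
      · simpa [h'] using ((key j).mp (hx j)).2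
      · simpa [h'] using ((key j).mp (hx j)).2
      · simp [h']
    · unfold fv
      rcases g_cases g j with h' | h' | h' | h' | h'
      · simp [h']
      · simp [h']
      · simp [h']
      · simp [h']
      · simpa [h'] using ((key j).mp (hx j)).2
  · rintro ⟨⟨h1, h2⟩, ⟨h3, h4⟩⟩ j
    have h1j := h1 j
    have h2j := h2 j
    have h3j := h3 j
    have h4j := h4 j
    unfold fa at h1j
    unfold fr at h2j
    unfold fu at h3j
    unfold fv at h4j
    rcases g_cases g j with h' | h' | h' | h' | h'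
    · simpa [h'] using h1j
    · simpa [h'] using h2j
    · rw [key j]
      exact ⟨by simpa [h'] using h1j, by simpa [h'] using h3j⟩
    · rw [key j]
      exact ⟨by simpa [h'] using h1j, by simpa [h'] using h3j⟩
    · rw [key j]
      exact ⟨by simpa [h'] using h1j, by simpa [h'] using h4j⟩

lemma Cd_fe (h : Fin K → ℤ) (g : Fin K → Fin 5) (D : ℕ) (q : Fin K → ℕ) (x : ℕ) :
    Cd h (fe g D q) x ↔ Cd h (fa g D q) x ∧ Cd h (fr g q) x := by
  constructor
  · intro hx
    refine ⟨fun j => ?_, fun j => ?_⟩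
    · have := hx j
      unfold fe at this
      unfold fa
      rcases g_cases g j with h' | h' | h' | h' | h' <;> simp [h'] at this ⊢ <;> exact this
    · have := hx j
      unfold fe at this
      unfold fr
      rcases g_cases g j with h' | h' | h' | h' | h' <;> simp [h'] at this ⊢ <;> exact this
  · rintro ⟨h1, h2⟩ j
    have h1j := h1 j
    have h2j := h2 j
    unfold fa at h1j
    unfold fr at h2j
    unfold fe
    rcases g_cases g j with h' | h' | h' | h' | h' <;> simp [h'] at h1j h2j ⊢ <;> assumption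

lemma Lc_iff (h : Fin K → ℤ) (W b : ℕ) (g : Fin K → Fin 5) (D : ℕ) (q : Fin K → ℕ) (x : ℕ) :
    Lc h W b (fa g D q) (fr g q) x ↔ x ≡ b [MOD W] ∧ Cd h (fe g D q) x := by
  rw [Cd_fe]; rfl

/-! ### indicators -/

lemma ind_and (P Q : Prop) : ind (P ∧ Q) = ind P * ind Q := by
  unfold ind
  by_cases hP : P <;> by_cases hQ : Q <;> simp [hP, hQ]

lemma ind_congr {P Q : Prop} (h : P ↔ Q) : ind P = ind Q := by rw [propext h]

lemma ind_nonneg (P : Prop) : 0 ≤ ind P := by unfold ind; split_ifs <;> norm_num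

lemma ind_le_one (P : Prop) : ind P ≤ 1 := by unfold ind; split_ifs <;> norm_num

lemma ind_of {P : Prop} (h : P) : ind P = 1 := by unfold ind; rw [if_pos h]

lemma ind_not {P : Prop} (h : ¬ P) : ind P = 0 := by unfold ind; rw [if_neg h]

/-- the bracket of the large sieve -/
noncomputable def br (D t x0 : ℕ) (x : ℕ) : ℝ :=
  ind (x ≡ x0 [MOD t]) -
    (1 / (Nat.totient (rop D t) : ℝ)) * ind (x ≡ x0 [MOD (smp D t)] ∧ x.Coprime (rop D t))

/-- smooth and rough part of the modulus `W Pr (a r)` -/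
lemma smp_t {W D : ℕ} {g : Fin K → Fin 5} {q : Fin K → ℕ} (hq : Squarefree (W * Pr q))
    (hD : ∀ p : ℕ, p.Prime → p ∣ W → p ≤ D) : smp D (W * Pr (fe g D q)) = W * Pr (sm D q) := by
  have hqj : ∀ j, Squarefree (q j) := sqf_of_Pr (Squarefree.of_mul_right hq)
  have hfe : Pr (fe g D q) ∣ Pr q := by
    apply Pr_dvd_Pr
    intro j
    rw [← fe_mul (g := g) (D := D) hqj j]
    exact dvd_mul_right _ _
  have hs : Squarefree (W * Pr (fe g D q)) := hq.squarefree_of_dvd (mul_dvd_mul_left _ hfe)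
  rw [smp_mul (Nat.coprime_of_squarefree_mul hs), smp_eq_self (Squarefree.of_mul_left hq) hD]
  congr 1
  have hs2 : Squarefree (∏ j, fe g D q j) := Squarefree.of_mul_right hs
  unfold Pr
  rw [smp_prod D univ _ hs2]
  refine prod_congr rfl fun j _ => ?_
  unfold fe sm
  split_ifs
  · rfl
  · exact smp_smp (hqj j)

/-- rough part of the modulus -/
def fer (g : Fin K → Fin 5) (D : ℕ) (q : Fin K → ℕ) : Fin K → ℕ := fun j =>
  if g j = 0 ∨ g j = 1 then rop D (q j) else 1

lemma rop_t {W D : ℕ} {g : Fin K → Fin 5} {q : Fin K → ℕ} (hq : Squarefree (W * Pr q))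
    (hD : ∀ p : ℕ, p.Prime → p ∣ W → p ≤ D) : rop D (W * Pr (fe g D q)) = Pr (fer g D q) := by
  have hqj : ∀ j, Squarefree (q j) := sqf_of_Pr (Squarefree.of_mul_right hq)
  have hfe : Pr (fe g D q) ∣ Pr q := by
    apply Pr_dvd_Pr
    intro j
    rw [← fe_mul (g := g) (D := D) hqj j]
    exact dvd_mul_right _ _
  have hs : Squarefree (W * Pr (fe g D q)) := hq.squarefree_of_dvd (mul_dvd_mul_left _ hfe)
  rw [rop_mul (Nat.coprime_of_squarefree_mul hs), rop_eq_one hD, one_mul]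
  have hs2 : Squarefree (∏ j, fe g D q j) := Squarefree.of_mul_right hs
  unfold Pr
  rw [rop_prod D univ _ hs2]
  refine prod_congr rfl fun j _ => ?_
  unfold fe fer
  split_ifs
  · rfl
  · exact rop_smp D _

lemma Pr_ro {D : ℕ} (g : Fin K → Fin 5) (q : Fin K → ℕ) :
    Pr (ro D q) = Pr (fer g D q) * (Pr (fu g D q) * Pr (fv g D q)) := by
  rw [← Pr_mul, ← Pr_mul]
  unfold Pr
  refine prod_congr rfl fun j _ => ?_
  unfold ro fer fu fv
  rcases g_cases g j with h | h | h | h | h <;> simp [h]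

lemma ro_dvd {D : ℕ} {q : Fin K → ℕ} (hqj : ∀ j, Squarefree (q j)) : Pr (ro D q) ∣ Pr q :=
  Pr_dvd_Pr fun j => rop_dvd (hqj j)

/-- the decomposition of `dl` -/
lemma dl_eq (h : Fin K → ℤ) {W b D : ℕ} {g : Fin K → Fin 5} {q : Fin K → ℕ}
    (hq : Squarefree (W * Pr q)) (hD : ∀ p : ℕ, p.Prime → p ∣ W → p ≤ D) (x0 : ℕ)
    (hx0 : ∀ d : Fin K → ℕ, (∀ j, d j ∣ fe g D q j) → ∀ x : ℕ,
      (x ≡ x0 [MOD (W * Pr d)] ↔ x ≡ b [MOD W] ∧ Cd h d x)) (x : ℕ) :
    dl h W b D q x = ind (Lc h W b (fa g D q) (fr g q) x) * Du h (fu g D q) (fv g D q) x +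
      (1 / (Nat.totient (Pr (fu g D q) * Pr (fv g D q)) : ℝ)) *
        ind (x.Coprime (Pr (fu g D q) * Pr (fv g D q))) * br D (W * Pr (fe g D q)) x0 x := by
  have hqj : ∀ j, Squarefree (q j) := sqf_of_Pr (Squarefree.of_mul_right hq)
  have hro : Squarefree (Pr (ro D q)) := (Squarefree.of_mul_right hq).squarefree_of_dvd (ro_dvd hqj)
  have hcop : (Pr (fer g D q)).Coprime (Pr (fu g D q) * Pr (fv g D q)) := by
    rw [Pr_ro g q] at hro
    exact Nat.coprime_of_squarefree_mul hro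
  have hdsm : ∀ j, sm D q j ∣ fe g D q j := by
    intro j
    unfold sm fe
    split_ifs
    · exact smp_dvd (hqj j)
    · exact dvd_rfl
  have e1 : ind (x ≡ b [MOD W] ∧ Cd h q x) =
      ind (Lc h W b (fa g D q) (fr g q) x) * ind (Cd h (fu g D q) x ∧ Cd h (fv g D q) x) := by
    rw [← ind_and]
    apply ind_congr
    rw [Cd_all h (g := g) (D := D) hqj x]
    unfold Lc
    tauto
  have e2 : ind (Lc h W b (fa g D q) (fr g q) x) = ind (x ≡ x0 [MOD W * Pr (fe g D q)]) := by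
    apply ind_congr
    rw [Lc_iff, hx0 _ (fun j => dvd_rfl)]
  have e3 : ind (x ≡ b [MOD W] ∧ Cd h (sm D q) x ∧ x.Coprime (Pr (ro D q))) =
      ind (x ≡ x0 [MOD smp D (W * Pr (fe g D q))] ∧ x.Coprime (rop D (W * Pr (fe g D q)))) *
        ind (x.Coprime (Pr (fu g D q) * Pr (fv g D q))) := by
    rw [← ind_and]
    apply ind_congr
    rw [smp_t hq hD, rop_t hq hD, hx0 _ hdsm, Pr_ro g q, Nat.coprime_mul_iff_right]
    tauto
  have e4 : (Nat.totient (Pr (ro D q)) : ℝ) =
      (Nat.totient (rop D (W * Pr (fe g D q))) : ℝ) * (Nat.totient (Pr (fu g D q) * Pr (fv g D q)) : ℝ) := by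
    rw [rop_t hq hD, Pr_ro g q, Nat.totient_mul hcop]
    push_cast
    ring
  unfold dl Du br
  rw [e1, e3, e4, e2]
  rw [one_div_mul_eq_div, one_div_mul_eq_div, one_div_mul_eq_div]
  ring

end Pool.Agent.Y61.Z
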