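import Pool.Agent.Y61.Z.T2
import Pool.Agent.TH935.LP.L1

/-!
# Y826-TII: moments of the divisor function
-/

open Finset

namespace Pool.Agent.Y61.Z

open Pool.Agent.Y826.Z

lemma tau_nonneg (n : ℕ) : 0 ≤ tau n := Nat.cast_nonneg _

lemma one_le_tau {n : ℕ} (h : n ≠ 0) : 1 ≤ tau n := by
  unfold tau
  exact_mod_cast Finset.card_pos.mpr (Nat.nonempty_divisors.mpr h)

lemma tau_zero : tau 0 = 0 := by simp [tau]

lemma tau_mul_le (m n : ℕ) : tau (m * n) ≤ tau m * tau n := by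
  unfold tau
  exact_mod_cast Pool.Agent.TH935.DSB.tau_mul m n

lemma tau_le_of_dvd {m n : ℕ} (h : m ∣ n) (hn : n ≠ 0) : tau m ≤ tau n := by
  unfold tau
  exact_mod_cast card_le_card (Nat.divisors_subset_of_dvd hn h)

lemma tau_prod_le {ι : Type*} [DecidableEq ι] (s : Finset ι) (f : ι → ℕ) :
    tau (∏ j ∈ s, f j) ≤ ∏ j ∈ s, tau (f j) := by
  induction s using Finset.induction_on with
  | empty => simp [tau]
  | insert a s ha ih =>
    rw [prod_insert ha, prod_insert ha]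
    exact (tau_mul_le _ _).trans (mul_le_mul_of_nonneg_left ih (tau_nonneg _))

/-- `n ≤ φ(n) τ(n)` -/
lemma le_totient_mul_tau (n : ℕ) (hn : 0 < n) : (n : ℝ) ≤ (Nat.totient n : ℝ) * tau n := by
  have h1 : n ≤ n.divisors.card * Nat.totient n := by
    calc n = ∑ m ∈ n.divisors, Nat.totient m := (Nat.sum_totient n).symm
      _ ≤ ∑ _m ∈ n.divisors, Nat.totient n := by
          refine sum_le_sum fun m hm => ?_
          exact Nat.le_of_dvd (Nat.totient_pos.mpr hn) (Nat.totient_dvd_of_dvd (Nat.dvd_of_mem_divisors hm))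
      _ = _ := by rw [sum_const, smul_eq_mul]
  unfold tau
  rw [mul_comm]
  exact_mod_cast h1

lemma one_div_totient_le (n : ℕ) (hn : 0 < n) : 1 / (Nat.totient n : ℝ) ≤ tau n / n := by
  have h1 : (0 : ℝ) < Nat.totient n := by exact_mod_cast Nat.totient_pos.mpr hn
  have h2 : (0 : ℝ) < n := by exact_mod_cast hn
  rw [div_le_div_iff₀ h1 h2, one_mul, mul_comm]
  exact le_totient_mul_tau n hn

lemma tau_moment (k Y : ℕ) : ∑ n ∈ Icc 1 Y, tau n ^ k ≤ Y * (1 + Real.log Y) ^ (2 ^ k) :=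
  Pool.Agent.TH935.LD.tau_pow_sum k Y

lemma tau_moment_div (k Y : ℕ) : ∑ n ∈ Icc 1 Y, tau n ^ k / n ≤ (1 + Real.log Y) ^ (2 ^ k) :=
  Pool.Agent.TH935.LD.tau_pow_div k Y

lemma one_add_log_nonneg (n : ℕ) : 0 ≤ 1 + Real.log n := Pool.Agent.TH935.DSB.log1_nonneg n

lemma one_le_one_add_log (n : ℕ) : 1 ≤ 1 + Real.log n := by
  have := Real.log_natCast_nonneg n
  linarith

/-- shifted moments -/
lemma tau_shift (h : ℤ) (k : ℕ) (hk : 1 ≤ k) (Y : ℕ) :
    ∑ x ∈ Icc 1 Y, tau ((x : ℤ) + h).natAbs ^ k ≤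
      2 * ((Y + h.natAbs : ℕ) * (1 + Real.log (Y + h.natAbs : ℕ)) ^ (2 ^ k)) := by
  classical
  have hmaps : ∀ x ∈ Icc 1 Y, ((x : ℤ) + h).natAbs ∈ Icc 0 (Y + h.natAbs) := by
    intro x hx
    rw [mem_Icc] at hx ⊢
    omega
  rw [← sum_fiberwise_of_maps_to hmaps]
  have h1 : ∀ y ∈ Icc 0 (Y + h.natAbs), ∑ x ∈ (Icc 1 Y).filter (fun x : ℕ => ((x : ℤ) + h).natAbs = y),
      tau ((x : ℤ) + h).natAbs ^ k ≤ 2 * tau y ^ k := by
    intro y _
    have h2 : ∑ x ∈ (Icc 1 Y).filter (fun x : ℕ => ((x : ℤ) + h).natAbs = y), tau ((x : ℤ) + h).natAbs ^ k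
        = ∑ x ∈ (Icc 1 Y).filter (fun x : ℕ => ((x : ℤ) + h).natAbs = y), tau y ^ k := by
      refine sum_congr rfl fun x hx => ?_
      rw [(mem_filter.mp hx).2]
    rw [h2, sum_const, nsmul_eq_mul]
    have h3 : ((Icc 1 Y).filter (fun x : ℕ => ((x : ℤ) + h).natAbs = y)).card ≤ 2 := by
      have : (Icc 1 Y).filter (fun x : ℕ => ((x : ℤ) + h).natAbs = y) ⊆
          {((y : ℤ) - h).toNat, (-(y : ℤ) - h).toNat} := by
        intro x hx
        rw [mem_filter, mem_Icc] at hx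
        rw [mem_insert, mem_singleton]
        omega
      exact (card_le_card this).trans card_le_two
    exact mul_le_mul_of_nonneg_right (by exact_mod_cast h3) (pow_nonneg (tau_nonneg _) _)
  refine (sum_le_sum h1).trans ?_
  rw [← mul_sum]
  apply mul_le_mul_of_nonneg_left _ (by norm_num)
  refine le_trans ?_ (tau_moment k _)
  have h4 : Icc 0 (Y + h.natAbs) = insert 0 (Icc 1 (Y + h.natAbs)) := by
    ext x; rw [mem_insert, mem_Icc, mem_Icc]; omega
  rw [h4, sum_insert (by simp), tau_zero, zero_pow (by omega), zero_add]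

/-- a product is at most the sum of the powers -/
lemma mul_prod_le {K : ℕ} (b0 : ℝ) (b : Fin K → ℝ) (h0 : 0 ≤ b0) (hb : ∀ j, 0 ≤ b j) :
    b0 * ∏ j, b j ≤ b0 ^ (K + 1) + ∑ j, b j ^ (K + 1) := by
  set S := b0 ^ (K + 1) + ∑ j, b j ^ (K + 1) with hS
  have hS1 : b0 ^ (K + 1) ≤ S := by
    have : 0 ≤ ∑ j, b j ^ (K + 1) := sum_nonneg fun j _ => pow_nonneg (hb j) _
    linarith
  have hS2 : ∀ j, b j ^ (K + 1) ≤ S := by
    intro j
    have h1 : b j ^ (K + 1) ≤ ∑ j, b j ^ (K + 1) :=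
      single_le_sum (f := fun j => b j ^ (K + 1)) (fun j _ => pow_nonneg (hb j) _) (mem_univ j)
    have h2 : 0 ≤ b0 ^ (K + 1) := pow_nonneg h0 _
    linarith
  have hS0 : 0 ≤ S := le_trans (pow_nonneg h0 _) hS1
  have h3 : (b0 * ∏ j, b j) ^ (K + 1) ≤ S ^ (K + 1) := by
    rw [mul_pow, ← prod_pow, pow_succ' S]
    apply mul_le_mul hS1 _ (prod_nonneg fun j _ => pow_nonneg (hb j) _) hS0
    calc ∏ j, b j ^ (K + 1) ≤ ∏ _j : Fin K, S :=
          prod_le_prod (fun j _ => pow_nonneg (hb j) _) (fun j _ => hS2 j)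
      _ = S ^ K := by simp
  exact (pow_le_pow_iff_left₀ (mul_nonneg h0 (prod_nonneg fun j _ => hb j)) hS0 (by omega)).mp h3

/-- the moments of the divisor functions of several shifts -/
lemma moment {K : ℕ} (h : Fin K → ℤ) (k : ℕ) (hk : 1 ≤ k) : ∃ C : ℕ, ∀ Y : ℕ, 1 ≤ Y →
    ∑ x ∈ Icc 1 Y, tau x ^ k * ∏ j, tau ((x : ℤ) + h j).natAbs ^ k ≤
      C * Y * (1 + Real.log Y) ^ C := by
  set k' := k * (K + 1) with hk'
  have hk'1 : 1 ≤ k' := Nat.mul_pos hk (by omega)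
  set H := ∑ j, (h j).natAbs with hH
  set C0 : ℝ := 1 + Real.log (1 + H : ℕ) with hC0
  have hC0' : 1 ≤ C0 := one_le_one_add_log _
  -- one shift
  have h1 : ∀ (j : Fin K) (Y : ℕ), 1 ≤ Y → ∑ x ∈ Icc 1 Y, tau ((x : ℤ) + h j).natAbs ^ k' ≤
      2 * (1 + H) * C0 ^ (2 ^ k') * (Y * (1 + Real.log Y) ^ (2 ^ k')) := by
    intro j Y hY
    refine (tau_shift (h j) k' hk'1 Y).trans ?_
    have hle : Y + (h j).natAbs ≤ Y * (1 + H) := by
      have : (h j).natAbs ≤ H := single_le_sum (f := fun j => (h j).natAbs) (fun _ _ => Nat.zero_le _) (mem_univ j)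
      nlinarith
    have hY0 : (0 : ℝ) < Y := by exact_mod_cast hY
    have hlog : 1 + Real.log (Y + (h j).natAbs : ℕ) ≤ C0 * (1 + Real.log Y) := by
      have h2 : Real.log (Y + (h j).natAbs : ℕ) ≤ Real.log (Y * (1 + H) : ℕ) :=
        Real.log_le_log (by exact_mod_cast (by omega : 0 < Y + (h j).natAbs)) (by exact_mod_cast hle)
      have h3 : Real.log (Y * (1 + H) : ℕ) = Real.log Y + Real.log (1 + H : ℕ) := by
        rw [Nat.cast_mul, Real.log_mul hY0.ne' (by positivity)]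
      have h4 : 0 ≤ Real.log Y := Real.log_natCast_nonneg Y
      have h5 : 0 ≤ Real.log (1 + H : ℕ) := Real.log_natCast_nonneg _
      rw [hC0]
      nlinarith [mul_nonneg h4 h5]
    have h6 : ((Y + (h j).natAbs : ℕ) : ℝ) ≤ Y * (1 + H) := by exact_mod_cast hle
    calc 2 * (((Y + (h j).natAbs : ℕ) : ℝ) * (1 + Real.log (Y + (h j).natAbs : ℕ)) ^ (2 ^ k'))
        ≤ 2 * ((Y * (1 + H)) * (C0 * (1 + Real.log Y)) ^ (2 ^ k')) := by
          apply mul_le_mul_of_nonneg_left _ (by norm_num)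
          apply mul_le_mul h6 _ (pow_nonneg (one_add_log_nonneg _) _) (by positivity)
          exact pow_le_pow_left₀ (one_add_log_nonneg _) hlog _
      _ = _ := by rw [mul_pow]; ring
  -- the constant
  set C1 : ℝ := 1 + K * (2 * (1 + H) * C0 ^ (2 ^ k')) with hC1
  obtain ⟨C2, hC2⟩ := exists_nat_ge C1
  refine ⟨C2 + 2 ^ k', fun Y hY => ?_⟩
  have hYL : (0 : ℝ) ≤ Y * (1 + Real.log Y) ^ (2 ^ k') :=
    mul_nonneg (Nat.cast_nonneg _) (pow_nonneg (one_add_log_nonneg _) _)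
  calc ∑ x ∈ Icc 1 Y, tau x ^ k * ∏ j, tau ((x : ℤ) + h j).natAbs ^ k
      ≤ ∑ x ∈ Icc 1 Y, (tau x ^ k' + ∑ j, tau ((x : ℤ) + h j).natAbs ^ k') := by
        refine sum_le_sum fun x _ => ?_
        have := mul_prod_le (tau x ^ k) (fun j => tau ((x : ℤ) + h j).natAbs ^ k)
          (pow_nonneg (tau_nonneg _) _) (fun j => pow_nonneg (tau_nonneg _) _)
        simpa only [← pow_mul, ← hk'] using this
    _ = ∑ x ∈ Icc 1 Y, tau x ^ k' + ∑ j, ∑ x ∈ Icc 1 Y, tau ((x : ℤ) + h j).natAbs ^ k' := by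
        rw [sum_add_distrib, sum_comm]
    _ ≤ Y * (1 + Real.log Y) ^ (2 ^ k') +
        ∑ _j : Fin K, 2 * (1 + H) * C0 ^ (2 ^ k') * (Y * (1 + Real.log Y) ^ (2 ^ k')) := by
        exact add_le_add (tau_moment k' Y) (sum_le_sum fun j _ => h1 j Y hY)
    _ = C1 * (Y * (1 + Real.log Y) ^ (2 ^ k')) := by
        rw [sum_const, card_univ, Fintype.card_fin, nsmul_eq_mul, hC1]; ring
    _ ≤ (C2 + 2 ^ k' : ℕ) * (Y * (1 + Real.log Y) ^ (C2 + 2 ^ k')) := by
        apply mul_le_mul _ _ hYL (Nat.cast_nonneg _)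
        · refine hC2.trans ?_
          exact_mod_cast Nat.le_add_right _ _
        · apply mul_le_mul_of_nonneg_left _ (Nat.cast_nonneg _)
          exact pow_le_pow_right₀ (one_le_one_add_log _) (Nat.le_add_left _ _)
    _ = _ := by ring

/-- from double sums to sums over the products -/
lemma conv_le (A B : ℕ) (G : ℕ → ℝ) (hG : ∀ x, 0 ≤ G x) :
    ∑ m ∈ Icc 1 A, ∑ n ∈ Icc 1 B, tau m * tau n * G (m * n) ≤
      ∑ x ∈ Icc 1 (A * B), tau x ^ 3 * G x := by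
  classical
  rw [← sum_product' (Icc 1 A) (Icc 1 B) (fun m n => tau m * tau n * G (m * n))]
  have hmaps : ∀ p ∈ Icc 1 A ×ˢ Icc 1 B, p.1 * p.2 ∈ Icc 1 (A * B) := by
    intro p hp
    rw [mem_product, mem_Icc, mem_Icc] at hp
    rw [mem_Icc]
    exact ⟨Nat.mul_pos hp.1.1 hp.2.1, Nat.mul_le_mul hp.1.2 hp.2.2⟩
  rw [← sum_fiberwise_of_maps_to hmaps]
  refine sum_le_sum fun x hx => ?_
  have hx0 : x ≠ 0 := by rw [mem_Icc] at hx; omega
  have h1 : ∀ p ∈ (Icc 1 A ×ˢ Icc 1 B).filter (fun p => p.1 * p.2 = x),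
      tau p.1 * tau p.2 * G (p.1 * p.2) ≤ tau x ^ 2 * G x := by
    intro p hp
    have hp2 := (mem_filter.mp hp).2
    rw [hp2]
    apply mul_le_mul_of_nonneg_right _ (hG x)
    rw [pow_two]
    exact mul_le_mul (tau_le_of_dvd ⟨_, hp2.symm⟩ hx0) (tau_le_of_dvd ⟨p.1, by rw [mul_comm]; exact hp2.symm⟩ hx0)
      (tau_nonneg _) (tau_nonneg _)
  refine (sum_le_sum h1).trans ?_
  rw [sum_const, nsmul_eq_mul]
  have h2 : (((Icc 1 A ×ˢ Icc 1 B).filter (fun p => p.1 * p.2 = x)).card : ℝ) ≤ tau x := by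
    unfold tau
    have : ((Icc 1 A ×ˢ Icc 1 B).filter (fun p => p.1 * p.2 = x)).card ≤ x.divisors.card := by
      apply card_le_card_of_injOn (fun p => p.1)
      · intro p hp
        have hp2 := (mem_filter.mp hp).2
        exact Nat.mem_divisors.mpr ⟨⟨_, hp2.symm⟩, hx0⟩
      · intro p hp p' hp' he
        have hp2 := (mem_filter.mp hp).2
        have hp2' := (mem_filter.mp hp').2
        simp only at he
        have hpos : 0 < p.1 := Nat.pos_of_ne_zero (by rintro h; rw [h, zero_mul] at hp2; exact hx0 hp2.symm)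
        ext
        · exact he
        · rw [← he] at hp2'
          exact Nat.eq_of_mul_eq_mul_left hpos (hp2.trans hp2'.symm)
    exact_mod_cast this
  calc _ ≤ tau x * (tau x ^ 2 * G x) :=
        mul_le_mul_of_nonneg_right h2 (mul_nonneg (pow_nonneg (tau_nonneg _) _) (hG x))
    _ = _ := by ring

end Pool.Agent.Y61.Z
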