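import Pool.Agent.Y61.Z.T7

/-!
# Y826-TII: the structure `Fm` of the decomposition
-/

open Finset

namespace Pool.Agent.Y61.Z

open Pool.Agent.Y826.Z

variable {K : ℕ}

lemma szg_eq (Q : Fin K → ℝ) (g : Fin K → Fin 5) (i : Fin 5) :
    szg Q g i = ∏ j, if g j = i then Q j else 1 := by
  unfold szg; rw [prod_filter]

/-- comparison of products -/
lemma prod_cmp {f f' : Fin K → ℝ} (h0 : ∀ j, 0 ≤ f j) (h : ∀ j, f j ≤ f' j) : ∏ j, f j ≤ ∏ j, f' j :=
  prod_le_prod (fun j _ => h0 j) fun j _ => h j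

lemma Pr_cast (x : Fin K → ℕ) : ((Pr x : ℕ) : ℝ) = ∏ j, (x j : ℝ) := by
  unfold Pr; push_cast; rfl

section
variable {W D : ℕ} {g : Fin K → Fin 5} {Q : Fin K → ℝ} {q : Fin K → ℕ}

lemma smp_cast_pos (D n : ℕ) : (1 : ℝ) ≤ (smp D n : ℝ) := by exact_mod_cast smp_pos D n
lemma rop_cast_pos (D n : ℕ) : (1 : ℝ) ≤ (rop D n : ℝ) := by exact_mod_cast rop_pos D n

lemma smp_rop_cast {D n : ℕ} (h : Squarefree n) : (smp D n : ℝ) * (rop D n : ℝ) = n := by
  exact_mod_cast smp_mul_rop h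

lemma a_lower (hQ : ∀ j, 0 < Q j) (hq : ∀ j, Q j < q j) :
    szg Q g 0 ≤ Pr (fa g D q) := by
  rw [szg_eq, Pr_cast]
  apply prod_cmp
  · intro j; split_ifs
    · exact (hQ j).le
    · norm_num
  · intro j
    have hs := smp_cast_pos D (q j)
    unfold fa
    rcases g_cases g j with h | h | h | h | h <;> simp [h] <;> first | exact (hq j).le | exact_mod_cast hs

lemma a_upper (hQ : ∀ j, 0 < Q j) (hq : ∀ j, (q j : ℝ) ≤ 2 * Q j) :
    (Pr (fa g D q) : ℝ) ≤ 2 ^ K * szg Q g 0 * Pr (sm D q) := by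
  rw [szg_eq, Pr_cast, Pr_cast]
  have e : (2 : ℝ) ^ K * (∏ j, if g j = 0 then Q j else 1) * ∏ j, (sm D q j : ℝ) =
      ∏ j, (2 * (if g j = 0 then Q j else 1) * (sm D q j : ℝ)) := by
    simp only [prod_mul_distrib, prod_const, card_univ, Fintype.card_fin]
  rw [e]
  apply prod_cmp (fun j => Nat.cast_nonneg _)
  intro j
  have hs := smp_cast_pos D (q j)
  have hQj := hQ j
  have hqj := hq j
  unfold fa sm
  rcases g_cases g j with h | h | h | h | h <;> simp [h] <;> nlinarith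

lemma r_lower (hQ : ∀ j, 0 < Q j) (hq : ∀ j, Q j < q j) :
    szg Q g 1 ≤ Pr (fr g q) := by
  rw [szg_eq, Pr_cast]
  apply prod_cmp
  · intro j; split_ifs
    · exact (hQ j).le
    · norm_num
  · intro j
    unfold fr
    split_ifs
    · exact (hq j).le
    · simp

lemma r_upper (hq : ∀ j, (q j : ℝ) ≤ 2 * Q j) :
    (Pr (fr g q) : ℝ) ≤ 2 ^ K * szg Q g 1 := by
  rw [szg_eq, Pr_cast]
  have e : (2 : ℝ) ^ K * (∏ j, if g j = 1 then Q j else 1) =
      ∏ j, (2 * (if g j = 1 then Q j else 1)) := by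
    simp only [prod_mul_distrib, prod_const, card_univ, Fintype.card_fin]
  rw [e]
  apply prod_cmp (fun j => Nat.cast_nonneg _)
  intro j
  unfold fr
  split_ifs
  · exact hq j
  · norm_num

/-- the two rough parts, uniformly -/
lemma uv_lower (i : Fin 5) (f : Fin K → ℕ) (hf : ∀ j, f j = if g j = i then rop D (q j) else 1)
    (hQ : ∀ j, 0 < Q j) (hsf : ∀ j, Squarefree (q j)) (hq : ∀ j, Q j < q j) :
    szg Q g i ≤ Pr f * Pr (sm D q) := by
  rw [szg_eq, Pr_cast, Pr_cast, ← prod_mul_distrib]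
  apply prod_cmp
  · intro j; split_ifs
    · exact (hQ j).le
    · norm_num
  · intro j
    have hs := smp_cast_pos D (q j)
    rw [hf j]
    unfold sm
    split_ifs
    · rw [mul_comm, smp_rop_cast (hsf j)]
      exact (hq j).le
    · rw [Nat.cast_one, one_mul]; exact hs

lemma uv_upper (i : Fin 5) (f : Fin K → ℕ) (hf : ∀ j, f j = if g j = i then rop D (q j) else 1)
    (hsf : ∀ j, Squarefree (q j)) (hq : ∀ j, (q j : ℝ) ≤ 2 * Q j) :
    (Pr f : ℝ) ≤ 2 ^ K * szg Q g i := by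
  rw [szg_eq, Pr_cast]
  have e : (2 : ℝ) ^ K * (∏ j, if g j = i then Q j else 1) =
      ∏ j, (2 * (if g j = i then Q j else 1)) := by
    simp only [prod_mul_distrib, prod_const, card_univ, Fintype.card_fin]
  rw [e]
  apply prod_cmp (fun j => Nat.cast_nonneg _)
  intro j
  rw [hf j]
  split_ifs
  · refine le_trans ?_ (hq j)
    exact_mod_cast rop_le (hsf j)
  · norm_num

lemma th_one (a : Fin K → ℕ) (ha : ∀ j, 1 ≤ a j) : 1 ≤ thf g a := by
  unfold thf
  have : ∏ _j : Fin K, (1 : ℝ) ≤ ∏ j, if g j = 2 ∨ g j = 3 ∨ g j = 4 then (a j : ℝ) else 1 := by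
    apply prod_cmp (fun _ => zero_le_one)
    intro j
    split_ifs
    · exact_mod_cast ha j
    · exact le_rfl
  simpa using this

lemma th_le : thf g (fa g D q) ≤ Pr (sm D q) := by
  rw [Pr_cast]
  unfold thf
  apply prod_cmp
  · intro j
    split_ifs
    · exact Nat.cast_nonneg _
    · norm_num
  · intro j
    have hs := smp_cast_pos D (q j)
    unfold fa sm
    rcases g_cases g j with h | h | h | h | h <;> simp [h] <;> exact_mod_cast hs

lemma ar_lower {q' : Fin K → ℕ} (hQ : ∀ j, 0 < Q j) (hq : ∀ j, Q j < q j) (hq' : ∀ j, Q j < q' j) :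
    thf g (fa g D q) * (szg Q g 0 * szg Q g 1) ≤ (Pr (fa g D q) : ℝ) * Pr (fr g q') := by
  rw [szg_eq, szg_eq, Pr_cast, Pr_cast]
  unfold thf
  rw [← prod_mul_distrib, ← prod_mul_distrib, ← prod_mul_distrib]
  apply prod_cmp
  · intro j
    have := (hQ j).le
    apply mul_nonneg
    · split_ifs
      · exact Nat.cast_nonneg _
      · norm_num
    · apply mul_nonneg <;> split_ifs <;> first | exact this | norm_num
  · intro j
    unfold fa fr
    rcases g_cases g j with h | h | h | h | h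
    · simp [h]; exact (hq j).le
    · simp [h]; exact (hq' j).le
    · simp [h]
    · simp [h]
    · simp [h]

end

lemma fa_pos {g : Fin K → Fin 5} {D : ℕ} {q : Fin K → ℕ} (hq : ∀ j, 1 ≤ q j) (j : Fin K) : 1 ≤ fa g D q j := by
  unfold fa
  split_ifs
  · exact hq j
  · exact le_rfl
  · exact smp_pos _ _

lemma rs_two (g : Fin K → Fin 5) (D : ℕ) (q : Fin K → ℕ) (j : Fin K) :
    rs (univ.filter (fun j => g j = 2)) (fu g D q) j = if g j = 2 then rop D (q j) else 1 := by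
  unfold rs fu
  by_cases h : g j = 2 <;> simp [h]

lemma rs_three (g : Fin K → Fin 5) (D : ℕ) (q : Fin K → ℕ) (j : Fin K) :
    rs (univ.filter (fun j => g j = 2))ᶜ (fu g D q) j = if g j = 3 then rop D (q j) else 1 := by
  unfold rs fu
  by_cases h : g j = 2
  · simp [h]
  · by_cases h' : g j = 3 <;> simp [h, h']

/-- the structure `Fm` -/
lemma fm {W D : ℕ} {g : Fin K → Fin 5} {Q : Fin K → ℝ} {S : Finset (Fin K → ℕ)} {X ε ε0 : ℝ}
    (hX : 1 ≤ X) (hε : 0 ≤ ε) (h2 : 2 ^ K * X ^ ε ≤ X ^ ε0) (hQ : ∀ j, 0 < Q j)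
    (hS : ∀ q ∈ S, Squarefree (W * Pr q) ∧ (∀ j, Q j < q j ∧ (q j : ℝ) ≤ 2 * Q j) ∧ (Pr (sm D q) : ℝ) ≤ X ^ ε)
    {c : (Fin K → ℕ) → ℝ} (hc : ∀ q, |c q| ≤ 1) :
    Fm ε0 X W (szg Q g 0) (szg Q g 1) (szg Q g 2) (szg Q g 3) (szg Q g 4) (univ.filter (fun j => g j = 2))
      (S.image (fa g D)) (S.image (fr g))
      (S.image (fu g D)) (S.image (fv g D)) (thf g) (ccf g D S c) := by
  have hX0 : 0 < X := by linarith
  have hpow1 : 1 ≤ X ^ ε := Real.one_le_rpow hX hε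
  have h2K : (1 : ℝ) ≤ 2 ^ K := one_le_pow₀ (by norm_num)
  have hle : X ^ ε ≤ X ^ ε0 := by
    refine le_trans ?_ h2
    calc X ^ ε = 1 * X ^ ε := (one_mul _).symm
      _ ≤ _ := mul_le_mul_of_nonneg_right h2K (by linarith)
  have h2K0 : (2 : ℝ) ^ K ≤ X ^ ε0 := by
    refine le_trans ?_ h2
    calc (2 : ℝ) ^ K = 2 ^ K * 1 := (mul_one _).symm
      _ ≤ _ := mul_le_mul_of_nonneg_left hpow1 (by linarith)
  have hε01 : 1 ≤ X ^ ε0 := hpow1.trans hle
  have hneg : X ^ (-ε0) ≤ 1 := by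
    rw [Real.rpow_neg hX0.le]
    exact inv_le_one_of_one_le₀ hε01
  have hneg0 : 0 ≤ X ^ (-ε0) := Real.rpow_nonneg hX0.le _
  have hmulneg : X ^ ε0 * X ^ (-ε0) = 1 := by
    rw [← Real.rpow_add hX0, add_neg_cancel, Real.rpow_zero]
  have hszg : ∀ i, 0 < szg Q g i := by
    intro i
    unfold szg
    exact prod_pos fun j _ => hQ j
  have hsf : ∀ q ∈ S, ∀ j, Squarefree (q j) := fun q hq => sqf_of_Pr (Squarefree.of_mul_right (hS q hq).1)
  have hq1 : ∀ q ∈ S, ∀ j, 1 ≤ q j := fun q hq j => Nat.pos_of_ne_zero (hsf q hq j).ne_zero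
  have hlo : ∀ q ∈ S, ∀ j, Q j < q j := fun q hq j => ((hS q hq).2.1 j).1
  have hup : ∀ q ∈ S, ∀ j, (q j : ℝ) ≤ 2 * Q j := fun q hq j => ((hS q hq).2.1 j).2
  have hsm : ∀ q ∈ S, (Pr (sm D q) : ℝ) ≤ X ^ ε := fun q hq => (hS q hq).2.2
  constructor
  · exact fun a r u v => ccf_abs hc a r u v
  · intro a r u v hne
    obtain ⟨q, hq, rfl, rfl, rfl, rfl⟩ := ccf_ne hne
    have := (hS q hq).1
    rw [← Pr_all (g := g) (D := D) (hsf q hq)] at this
    simpa only [mul_assoc] using this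
  · intro a ha
    obtain ⟨q, hq, rfl⟩ := mem_image.mp ha
    exact th_one _ (fa_pos (hq1 q hq))
  · intro a ha
    obtain ⟨q, hq, rfl⟩ := mem_image.mp ha
    exact th_le.trans ((hsm q hq).trans hle)
  · intro a ha
    obtain ⟨q, hq, rfl⟩ := mem_image.mp ha
    refine le_trans ?_ (a_lower hQ (hlo q hq))
    exact mul_le_of_le_one_right (hszg 0).le hneg
  · intro a ha
    obtain ⟨q, hq, rfl⟩ := mem_image.mp ha
    refine (a_upper hQ (hup q hq)).trans ?_
    calc 2 ^ K * szg Q g 0 * (Pr (sm D q) : ℝ) ≤ 2 ^ K * szg Q g 0 * X ^ ε :=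
          mul_le_mul_of_nonneg_left (hsm q hq) (mul_nonneg (by linarith) (hszg 0).le)
      _ = szg Q g 0 * (2 ^ K * X ^ ε) := by ring
      _ ≤ _ := mul_le_mul_of_nonneg_left h2 (hszg 0).le
  · intro r hr
    obtain ⟨q, hq, rfl⟩ := mem_image.mp hr
    refine le_trans ?_ (r_lower hQ (hlo q hq))
    exact mul_le_of_le_one_right (hszg 1).le hneg
  · intro r hr
    obtain ⟨q, hq, rfl⟩ := mem_image.mp hr
    refine (r_upper (hup q hq)).trans ?_
    rw [mul_comm]
    exact mul_le_mul_of_nonneg_left h2K0 (hszg 1).le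
  · intro u hu
    obtain ⟨q, hq, rfl⟩ := mem_image.mp hu
    have h1 := uv_lower (D := D) (q := q) 2 (rs (univ.filter (fun j => g j = 2)) (fu g D q)) (rs_two g D q) hQ (hsf q hq) (hlo q hq)
    calc szg Q g 2 * X ^ (-ε0) ≤ ((Pr (rs (univ.filter (fun j => g j = 2)) (fu g D q)) : ℝ) * Pr (sm D q)) * X ^ (-ε0) :=
          mul_le_mul_of_nonneg_right h1 hneg0
      _ ≤ ((Pr (rs (univ.filter (fun j => g j = 2)) (fu g D q)) : ℝ) * X ^ ε0) * X ^ (-ε0) := by
          apply mul_le_mul_of_nonneg_right _ hneg0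
          exact mul_le_mul_of_nonneg_left ((hsm q hq).trans hle) (Nat.cast_nonneg _)
      _ = _ := by rw [mul_assoc, hmulneg, mul_one]
  · intro u hu
    obtain ⟨q, hq, rfl⟩ := mem_image.mp hu
    refine (uv_upper (D := D) (q := q) 2 (rs (univ.filter (fun j => g j = 2)) (fu g D q)) (rs_two g D q) (hsf q hq) (hup q hq)).trans ?_
    rw [mul_comm]
    exact mul_le_mul_of_nonneg_left h2K0 (hszg 2).le
  · intro u hu
    obtain ⟨q, hq, rfl⟩ := mem_image.mp hu
    have h1 := uv_lower (D := D) (q := q) 3 (rs (univ.filter (fun j => g j = 2))ᶜ (fu g D q)) (rs_three g D q) hQ (hsf q hq) (hlo q hq)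
    calc szg Q g 3 * X ^ (-ε0) ≤ ((Pr (rs (univ.filter (fun j => g j = 2))ᶜ (fu g D q)) : ℝ) * Pr (sm D q)) * X ^ (-ε0) :=
          mul_le_mul_of_nonneg_right h1 hneg0
      _ ≤ ((Pr (rs (univ.filter (fun j => g j = 2))ᶜ (fu g D q)) : ℝ) * X ^ ε0) * X ^ (-ε0) := by
          apply mul_le_mul_of_nonneg_right _ hneg0
          exact mul_le_mul_of_nonneg_left ((hsm q hq).trans hle) (Nat.cast_nonneg _)
      _ = _ := by rw [mul_assoc, hmulneg, mul_one]
  · intro u hu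
    obtain ⟨q, hq, rfl⟩ := mem_image.mp hu
    refine (uv_upper (D := D) (q := q) 3 (rs (univ.filter (fun j => g j = 2))ᶜ (fu g D q)) (rs_three g D q) (hsf q hq) (hup q hq)).trans ?_
    rw [mul_comm]
    exact mul_le_mul_of_nonneg_left h2K0 (hszg 3).le
  · intro u hu
    obtain ⟨q, hq, rfl⟩ := mem_image.mp hu
    have h1 := uv_lower (D := D) (q := q) 4 (fv g D q) (fun j => rfl) hQ (hsf q hq) (hlo q hq)
    calc szg Q g 4 * X ^ (-ε0) ≤ ((Pr (fv g D q) : ℝ) * Pr (sm D q)) * X ^ (-ε0) :=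
          mul_le_mul_of_nonneg_right h1 hneg0
      _ ≤ ((Pr (fv g D q) : ℝ) * X ^ ε0) * X ^ (-ε0) := by
          apply mul_le_mul_of_nonneg_right _ hneg0
          exact mul_le_mul_of_nonneg_left ((hsm q hq).trans hle) (Nat.cast_nonneg _)
      _ = _ := by rw [mul_assoc, hmulneg, mul_one]
  · intro u hu
    obtain ⟨q, hq, rfl⟩ := mem_image.mp hu
    refine (uv_upper (D := D) (q := q) 4 (fv g D q) (fun j => rfl) (hsf q hq) (hup q hq)).trans ?_
    rw [mul_comm]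
    exact mul_le_mul_of_nonneg_left h2K0 (hszg 4).le
  · intro a ha r hr
    obtain ⟨q, hq, rfl⟩ := mem_image.mp ha
    obtain ⟨q', hq', rfl⟩ := mem_image.mp hr
    exact ar_lower hQ (hlo q hq) (hlo q' hq')

end Pool.Agent.Y61.Z
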