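import Pool.Agent.Y61.Z.T8
import Pool.Agent.Helper919.DivBound

/-!
# Y826-TII: asymptotic facts
-/

open Finset Filter

namespace Pool.Agent.Y61.Z

open Pool.Agent.Y826.Z

lemma ev_log (c : ℝ) : ∀ᶠ X : ℝ in atTop, c ≤ Real.log X :=
  Real.tendsto_log_atTop.eventually_ge_atTop c

lemma ev_rpow (c : ℝ) {η : ℝ} (hη : 0 < η) : ∀ᶠ X : ℝ in atTop, c ≤ X ^ η :=
  (tendsto_rpow_atTop hη).eventually_ge_atTop c

lemma ev_log_rpow (C : ℝ) (k : ℕ) {η : ℝ} (hη : 0 < η) :
    ∀ᶠ X : ℝ in atTop, C * Real.log X ^ k ≤ X ^ η := by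
  have h1 := (isLittleO_log_rpow_rpow_atTop (r := (k : ℝ)) (s := η) hη).def (c := 1 / (|C| + 1)) (by positivity)
  filter_upwards [h1, ev_log 1, eventually_ge_atTop 1] with X hX hl hX1
  have hlk : 0 ≤ Real.log X ^ k := pow_nonneg (by linarith) _
  rw [Real.rpow_natCast, Real.norm_of_nonneg hlk, Real.norm_of_nonneg (by positivity)] at hX
  have hC : C * Real.log X ^ k ≤ (|C| + 1) * Real.log X ^ k :=
    mul_le_mul_of_nonneg_right ((le_abs_self C).trans (by linarith)) hlk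
  refine hC.trans ?_
  have hpos : 0 < |C| + 1 := by positivity
  calc (|C| + 1) * Real.log X ^ k ≤ (|C| + 1) * (1 / (|C| + 1) * X ^ η) :=
        mul_le_mul_of_nonneg_left hX hpos.le
    _ = X ^ η := by field_simp

lemma asym (C : ℝ) (c A B : ℕ) {η : ℝ} (hη : 0 < η) (hB : 2 * A + c + 1 ≤ B) :
    ∀ᶠ X : ℝ in atTop, C * Real.log X ^ c * (1 / Real.log X ^ B + X ^ (-η)) ≤ 1 / (4 * Real.log X ^ (2 * A)) := by
  filter_upwards [ev_log 1, ev_log (8 * |C|), ev_log_rpow (8 * |C|) (c + 2 * A) hη, eventually_ge_atTop 1]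
    with X hl hl2 hpow hX1
  set y := Real.log X with hy
  have hy0 : 0 < y := by linarith
  have hX0 : 0 < X := by linarith
  have hXη : 0 < X ^ η := Real.rpow_pos_of_pos hX0 _
  have h1 : |C| * y ^ c * (1 / y ^ B) ≤ 1 / (8 * y ^ (2 * A)) := by
    rw [mul_one_div, div_le_div_iff₀ (pow_pos hy0 _) (by positivity)]
    calc |C| * y ^ c * (8 * y ^ (2 * A)) = (8 * |C|) * y ^ (2 * A + c) := by rw [pow_add]; ring
      _ ≤ y * y ^ (2 * A + c) := mul_le_mul_of_nonneg_right hl2 (pow_nonneg hy0.le _)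
      _ = y ^ (2 * A + c + 1) := by rw [pow_succ]; ring
      _ ≤ y ^ B := pow_le_pow_right₀ hl hB
      _ = 1 * y ^ B := (one_mul _).symm
  have h2 : |C| * y ^ c * X ^ (-η) ≤ 1 / (8 * y ^ (2 * A)) := by
    rw [Real.rpow_neg hX0.le, ← div_eq_mul_inv, div_le_div_iff₀ hXη (by positivity)]
    calc |C| * y ^ c * (8 * y ^ (2 * A)) = (8 * |C|) * y ^ (c + 2 * A) := by rw [pow_add]; ring
      _ ≤ X ^ η := hpow
      _ = 1 * X ^ η := (one_mul _).symm
  have h3 : C * y ^ c * (1 / y ^ B + X ^ (-η)) ≤ |C| * y ^ c * (1 / y ^ B + X ^ (-η)) := by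
    apply mul_le_mul_of_nonneg_right _ (by positivity)
    exact mul_le_mul_of_nonneg_right (le_abs_self C) (by positivity)
  refine h3.trans ?_
  rw [mul_add]
  refine (add_le_add h1 h2).trans (le_of_eq ?_)
  field_simp
  norm_num

/-- the divisor bound in the form needed -/
lemma ev_tau {ε : ℝ} (hε : 0 < ε) : ∀ᶠ X : ℝ in atTop, ∀ n : ℕ, 1 ≤ n → (n : ℝ) ≤ X →
    tau n * Real.log X ≤ X ^ ε := by
  obtain ⟨k, hk⟩ := exists_nat_gt (2 / ε)
  have hk0 : (0 : ℝ) < k := lt_trans (by positivity) hk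
  have hk1 : k ≠ 0 := by rintro rfl; simp at hk0
  obtain ⟨C, _, hC⟩ := Pool.Agent.Helper919.card_divisors_pow_le k
  filter_upwards [ev_log 1, ev_log_rpow C k (η := 1) one_pos, eventually_ge_atTop 1] with X hl hpow hX1 n hn hnX
  have hX0 : 0 < X := by linarith
  have h1 : tau n ^ k ≤ C * n := by
    unfold tau
    exact_mod_cast hC n (by omega)
  have h2 : (tau n * Real.log X) ^ k ≤ (X ^ ε) ^ k := by
    rw [mul_pow]
    calc tau n ^ k * Real.log X ^ k ≤ (C * n) * Real.log X ^ k :=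
          mul_le_mul_of_nonneg_right h1 (pow_nonneg (by linarith) _)
      _ = (C * Real.log X ^ k) * n := by ring
      _ ≤ X ^ (1 : ℝ) * X := mul_le_mul hpow hnX (Nat.cast_nonneg _) (Real.rpow_nonneg hX0.le _)
      _ = X ^ (2 : ℝ) := by rw [Real.rpow_one, Real.rpow_two, pow_two]
      _ ≤ X ^ (ε * k) := by
          apply Real.rpow_le_rpow_of_exponent_le hX1
          have := (div_lt_iff₀ hε).mp hk
          linarith
      _ = (X ^ ε) ^ k := by rw [Real.rpow_mul hX0.le, Real.rpow_natCast]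
  exact (pow_le_pow_iff_left₀ (mul_nonneg (tau_nonneg _) (by linarith)) (Real.rpow_nonneg hX0.le _) hk1).mp h2

end Pool.Agent.Y61.Z
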